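import Pool.Agent.H82.KT2.Main

set_option autoImplicit false

namespace Pool.Agent.Results.MP_429f6c_gt.NoKTimeNearSingularity

open Pool.Agent.H93.KT Pool.Agent.H82.KT2

/-- There is a GHMC anti-de Sitter manifold `M = Ω / Γ` of dimension `3 + 1`, with convex core
`C / Γ`, such that:

(1) the past `P(M)` of the convex core has no K-time: there is no time function on it all of whose
level sets are spacelike Cauchy hypersurfaces of `M`, of class `C²`, with constant K-curvature;

(2) if the level sets of a time function of `P(M)` are only required to be spacelike hypersurfaces of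
class `C²` with constant K-curvature, then from some level on downwards no level set is a Cauchy
hypersurface of `M`, none is compact in `M`, and all run into the initial singularity of `M`;

(3) some Cauchy hypersurface `S₀` of `M`, compact in `M`, lies in `P(M)` and has no Cauchy
hypersurface of `M` of class `C²` and constant K-curvature in its causal past. -/
theorem result : ∃ (Γ : Subgroup G5) (Ω S C : Set V), IsGHMC Γ Ω S ∧ IsConvexCore Γ Ω C ∧
    (¬ ∃ t : V → ℝ, IsKTimeLike Γ Ω (Past Ω C) t) ∧
    (∀ t : V → ℝ, IsKTime Γ (Past Ω C) t → ∃ x₀ ∈ Past Ω C, ∀ x ∈ Past Ω C, t x ≤ t x₀ →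
      ¬ IsCauchy Ω (Level (Past Ω C) t x) ∧ ¬ CompactQuot Γ (Level (Past Ω C) t x) ∧
      RunsIntoSingularity Γ Ω (Level (Past Ω C) t x)) ∧
    ∃ S₀ : Set V, IsCauchy Ω S₀ ∧ Inva Γ S₀ ∧ CompactQuot Γ S₀ ∧ S₀ ⊆ Past Ω C ∧
      ∀ L : Set V, IsCauchy Ω L → Inva Γ L → L ⊆ CausalPast Ω S₀ →
        ¬ ∃ κ : ℝ, ∀ x ∈ L, HasKCurv L x κ :=
  main

end Pool.Agent.Results.MP_429f6c_gt.NoKTimeNearSingularity
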